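import Pool.Agent.Run7.h415.Cross

set_option autoImplicit false

namespace Pool.Agent.Results.MP_dadc3d_co.ToroidalIndex

open Run7.h415

theorem val_succ {n : ℕ} (hn : 3 ≤ n) (x : ZMod n) :
    (x + 1).val = if x.val + 1 = n then 0 else x.val + 1 := by
  haveI : NeZero n := ⟨by omega⟩
  haveI : Fact (1 < n) := ⟨by omega⟩
  have hlt := ZMod.val_lt x
  rw [ZMod.val_add, ZMod.val_one]
  split_ifs with h
  · rw [h, Nat.mod_self]
  · rw [Nat.mod_eq_of_lt (by omega)]

/-- The index data. -/
noncomputable def data {V : Type} [Finite V] (N : Fin 3 → ℕ) (hN : ∀ a, 3 ≤ N a)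
    (s : Fin 3 → Equiv.Perm V) (φ : V → ∀ a, ZMod (N a))
    (h1 : ∀ a v, φ (s a v) = φ v + Pi.single a 1) (h2 : ∀ a, (s a) ^ (N a) = 1) : Data V where
  N := N
  s := fun a v => s a v
  idx := fun v a => (φ v a).val
  comp := fun a v => (Finite.equivFin V (((s a) ^ (N a - (φ v a).val)) v) : ℕ)
  K := Nat.card V
  hN := hN
  hlt := by
    intro v a
    haveI : NeZero (N a) := ⟨by have := hN a; omega⟩
    exact ZMod.val_lt _
  hself := by
    intro a v
    have : φ (s a v) a = φ v a + 1 := by rw [h1]; simp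
    rw [this, val_succ (hN a)]
  hother := by
    intro a b v hab
    have : φ (s a v) b = φ v b := by rw [h1]; simp [Pi.single_eq_of_ne hab]
    rw [this]
  hcomp := by
    intro a v
    haveI : NeZero (N a) := ⟨by have := hN a; omega⟩
    have hlt := ZMod.val_lt (φ v a)
    have h3 : φ (s a v) a = φ v a + 1 := by rw [h1]; simp
    rw [h3, val_succ (hN a)]
    split_ifs with h
    · have : N a - (φ v a).val = 1 := by omega
      rw [this, Nat.sub_zero, h2]
      rfl
    · have : N a - (φ v a).val = (N a - ((φ v a).val + 1)) + 1 := by omega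
      rw [this, pow_succ]
      rfl
  hK := fun a v => (Finite.equivFin V _).2
  hinj := by
    intro a u v huv hc
    have h3 : (φ u a).val = (φ v a).val := congrFun huv a
    rw [h3] at hc
    have h4 := (Finite.equivFin V).injective (Fin.ext hc)
    exact Equiv.injective _ h4

theorem result {V : Type} [Finite V] (G : SimpleGraph V) (N : Fin 3 → ℕ) (hN : ∀ a, 3 ≤ N a)
    (s : Fin 3 → Equiv.Perm V) (φ : V → ∀ a, ZMod (N a))
    (h1 : ∀ a v, φ (s a v) = φ v + Pi.single a 1) (h2 : ∀ a, (s a) ^ (N a) = 1)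
    (hG : ∀ u v, G.Adj u v → ∃ a, s a u = v ∨ s a v = u) : HasTwoBendDrawing G :=
  Data.drawing (data N hN s φ h1 h2) G hG

end Pool.Agent.Results.MP_dadc3d_co.ToroidalIndex
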